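import Mathlib
import Pool.Agent.H55.StepTree

/-! A special wide Aronszajn tree that embeds into no `ω₁`-tree. -/

namespace Pool.Agent.Results.MP_6e75db_lc.Special

open Set
open Cardinal hiding univ

universe u

/-- the well-order `ω₁` of the countable ordinals -/
abbrev W : Type := (ℵ_ 1 : Cardinal.{0}).ord.ToType

/-- the level `T_α`: nodes whose set of predecessors has order type `α` -/
def level (T : Type u) [PartialOrder T] (α : W) : Set T := {t | Nonempty (Iio t ≃o Iio α)}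

/-- a tree of height `ω₁`: the predecessors of each node are well-ordered, of countable type,
and every countable level is non-empty -/
def TreeHeightOmega1 (T : Type u) [PartialOrder T] : Prop :=
  (∀ t : T, ∃ α, t ∈ level T α) ∧ ∀ α, (level T α).Nonempty

/-- normality -/
def Normal (T : Type u) [PartialOrder T] : Prop :=
  (∀ α, IsMin α → ∃ r, level T α = {r}) ∧ (∀ (t : T) α, ∃ s ∈ level T α, s ≤ t ∨ t ≤ s) ∧
    ∀ α, Order.IsSuccLimit α → ∀ s ∈ level T α, ∀ t ∈ level T α, s ≠ t →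
      ∃ β < α, ∃ s' ∈ level T β, ∃ t' ∈ level T β, s' < s ∧ t' < t ∧ s' ≠ t'

/-- normal `(ω₁, ≤ℵ₁)`-Aronszajn tree -/
def Aronszajn (T : Type) [PartialOrder T] : Prop :=
  TreeHeightOmega1 T ∧ Normal T ∧ (∀ α, #(level T α) ≤ ℵ_ 1) ∧
    ∀ B : Set T, IsMaxChain (· ≤ ·) B → #B ≠ ℵ_ 1

/-- a union of countably many antichains -/
def IsSpecial (T : Type) [PartialOrder T] : Prop :=
  ∃ A : ℕ → Set T, (∀ n, IsAntichain (· ≤ ·) (A n)) ∧ ⋃ n, A n = univ

/-- `S` embeds into `T` -/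
def Embeds (S : Type) (T : Type u) [PartialOrder S] [PartialOrder T] : Prop :=
  ∃ e : S → T, Function.Injective e ∧ ∀ s s', s < s' ↔ e s < e s'

open Pool.Agent.H55 Pool.Agent.H55.StepTree

theorem mem_level {x : S} {α : W} : x ∈ level S α ↔ x.a = α :=
  ⟨fun ⟨φ⟩ => uniq ⟨(iso x).some.symm.trans φ⟩, fun h => h ▸ iso x⟩

theorem result : ∃ (S : Type) (_ : PartialOrder S), Aronszajn S ∧ IsSpecial S ∧
    ∀ (T : Type u) [PartialOrder T], TreeHeightOmega1 T → (∀ α, (level T α).Countable) →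
      ¬ Embeds S T := by
  obtain ⟨c, hc⟩ := special
  have hext : ∀ (t : S) α, ∃ s ∈ level S α, s ≤ t ∨ t ≤ s := fun t α => by
    rcases le_total α t.a with h | h
    · obtain ⟨y, h1, h2⟩ := exists_res t h
      exact ⟨y, mem_level.2 h1, Or.inl h2⟩
    · obtain ⟨y, h1, h2⟩ := exists_ext t h
      exact ⟨y, mem_level.2 h1, Or.inr h2⟩
  refine ⟨S, inferInstance, ⟨⟨fun t => ⟨t.a, mem_level.2 rfl⟩, fun α => ?_⟩,
    ⟨fun α hα => ⟨root, ?_⟩, hext, ?_⟩, fun α => (mk_subtype_le _).trans mk_S, fun B hB h => ?_⟩,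
    ⟨fun n => c ⁻¹' {n}, fun n x hx y hy hne h => ?_, ?_⟩, ?_⟩
  · obtain ⟨s, hs, -⟩ := hext root α
    exact ⟨s, hs⟩
  · have ho : α = o := le_antisymm (hα (o_le α)) (o_le α)
    ext x
    rw [mem_level, ho]
    refine ⟨fun h => S.ext' h fun ξ hξ => absurd (hξ.trans_eq h) (o_le ξ).not_gt, ?_⟩
    rintro rfl
    rfl
  · intro α hα s hs t ht hne
    rw [mem_level] at hs ht
    obtain ⟨ξ, hξ, hξ'⟩ : ∃ ξ < s.a, s.t ξ ≠ t.t ξ := by
      by_contra h
      push Not at h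
      exact hne (S.ext' (hs.trans ht.symm) h)
    obtain ⟨β, h1, h2⟩ := (not_covBy_iff (hξ.trans_eq hs)).1 (hα.isSuccPrelimit ξ)
    obtain ⟨y, hy, hys⟩ := exists_res s (h2.trans_eq hs.symm).le
    obtain ⟨z, hz, hzt⟩ := exists_res t (h2.trans_eq ht.symm).le
    refine ⟨β, h2, y, mem_level.2 hy, z, mem_level.2 hz, lt_of_a hys (by rw [hy, hs]; exact h2),
      lt_of_a hzt (by rw [hz, ht]; exact h2), fun e => hξ' ?_⟩
    rw [← hys.2 ξ (hy ▸ h1), ← hzt.2 ξ (hz ▸ h1), e]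
  · have : B.Countable := countable_iff_exists_injOn.2 ⟨c, fun x hx y hy e => by
      by_contra hne
      rcases hB.1 hx hy hne with h | h
      · exact hc _ _ (lt_of_le_of_ne h hne) e
      · exact hc _ _ (lt_of_le_of_ne h (Ne.symm hne)) e.symm⟩
    exact ((le_aleph0_iff_set_countable.2 this).trans_lt aleph0_lt_aleph_one).ne h
  · exact hc _ _ (lt_of_le_of_ne h hne) (hx.trans hy.symm)
  · exact eq_univ_of_forall fun x => mem_iUnion.2 ⟨c x, rfl⟩
  · rintro T _ ⟨h1, -⟩ hcnt ⟨e, he1, he2⟩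
    choose ht hht using h1
    have φ : ∀ t, Iio t ≃o Iio (ht t) := fun t => (hht t).some
    have hφ : ∀ t (s : Iio t), ht s = (φ t s).1 := fun t s => by
      refine uniq ⟨(φ s).symm.trans (RelIso.ofSurjective (OrderEmbedding.ofMapLEIff
        (fun y : Iio s.1 => (⟨(φ t ⟨y.1, lt_trans y.2 s.2⟩).1,
          (φ t).strictMono (show (⟨y.1, lt_trans y.2 s.2⟩ : Iio t) < s from y.2)⟩ :
            Iio (φ t s).1)) fun y z => (φ t).le_iff_le) fun β => ?_)⟩
      have h0 : β.1 ∈ Iio (ht t) := lt_trans (show β.1 < (φ t s).1 from β.2) (φ t s).2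
      have hβ : (⟨β.1, h0⟩ : Iio (ht t)) < φ t s := β.2
      refine ⟨⟨((φ t).symm ⟨β.1, h0⟩).1, ((φ t).symm_apply_lt.2 hβ :)⟩, Subtype.ext ?_⟩
      have := congrArg Subtype.val ((φ t).apply_symm_apply ⟨β.1, h0⟩)
      exact this
    refine no_embed ht (fun s t h => (hφ t ⟨s, h⟩).trans_lt (φ t ⟨s, h⟩).2)
      (fun t β h => ⟨((φ t).symm ⟨β, h⟩).1, ((φ t).symm ⟨β, h⟩).2, by
        rw [hφ, OrderIso.apply_symm_apply]⟩)
      (fun t a ha b hb => (le_total (φ t ⟨a, ha⟩) (φ t ⟨b, hb⟩)).imp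
        (fun h => ((φ t).le_iff_le.1 h :)) fun h => ((φ t).le_iff_le.1 h :))
      (fun α => (hcnt α).mono fun t h => (show ht t = α from h) ▸ hht t) e fun x y => ?_
    rw [le_iff_lt_or_eq, le_iff_lt_or_eq, he2, he1.eq_iff]

end Pool.Agent.Results.MP_6e75db_lc.Special
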